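import Pool.Agent.H33.PTH.Vst

/-!
# The rows of the heights, cells smaller than the precision

If the cells are smaller than the precision, the tangential position is known from the context and
the time, and the height of the sheet is the passive coordinate, up to boundedly many units.
-/

set_option autoImplicit false

namespace Pool.PTH

open MvPolynomial Finset Real
open Pool.Agent.H49.Ent Pool.Agent.H32.Dense Pool.STK Pool.KA Pool.KSAT Pool.K2S Pool.PB
open Pool.SLO Pool.SLP Pool.KAF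

variable {m J : ℕ}

/-- The height over the centre of the box is the passive coordinate. -/
theorem gfn_cen {F : Fam m J} {i₁ : Fin m} {a w q e X P : ℕ} {L : ℝ} (hL : 0 ≤ L)
    {G : F.Ω → MvPolynomial (Fin m) ℝ}
    {H : ((Fin m → ℝ) × (Fin m → ℝ)) × F.ζ × ℕ → MvPolynomial (Fin m) ℝ} {ω : F.Ω}
    (hw : w ≤ J) (hq : a ≤ w + q) (haX : e + X ≤ a)
    (hgr : ∀ b : Fin m → ℝ, (∀ j, |b j - bp F i₁ ω j| ≤ 2 / 2 ^ a) →
      ∀ j, |eval b (pderiv j (G ω))| ≤ L)
    (hx : |F.x ω i₁ - eval (bp F i₁ ω) (G ω)| ≤ 1 / 2 ^ (e + X)) :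
    |gfn F i₁ G ω (cen i₁ J a w q (ctx F i₁ a w q P H ω) (F.W ω)) - F.x ω i₁| ≤
      (2 * (m * L) + 1) / 2 ^ (e + X) := by
  have h0 : (0 : ℝ) < 2 ^ a := by positivity
  have hne : ∀ j, j ≠ i₁ → |cen i₁ J a w q (ctx F i₁ a w q P H ω) (F.W ω) j - F.x ω j| ≤
      2 / 2 ^ a := by
    intro j hj
    have h1 := cen_near F i₁ hw hq P H ω j hj
    rw [abs_le]
    constructor <;> linarith only [h1, h1.1, h1.2]
  have hseg : |gfn F i₁ G ω (cen i₁ J a w q (ctx F i₁ a w q P H ω) (F.W ω)) -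
      eval (bp F i₁ ω) (G ω)| ≤ m * L * (2 / 2 ^ a) := by
    unfold gfn
    refine seg_lip (G ω) L (2 / 2 ^ a) hL (bp F i₁ ω) _ ?_ ?_
    · intro i
      unfold bp
      by_cases hi : i = i₁
      · subst hi
        rw [Function.update_self, Function.update_self, sub_self, abs_zero]
        positivity
      · rw [Function.update_of_ne hi, Function.update_of_ne hi]
        exact hne i hi
    · intro s hs0 hs1 i
      refine hgr _ ?_ i
      intro j
      unfold bp
      by_cases hj : j = i₁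
      · subst hj
        simp only [Function.update_self, sub_self, mul_zero, add_zero, abs_zero]
        positivity
      · simp only [Function.update_of_ne hj]
        rw [add_sub_cancel_left, abs_mul, abs_of_nonneg hs0]
        calc s * |cen i₁ J a w q (ctx F i₁ a w q P H ω) (F.W ω) j - F.x ω j| ≤
            1 * (2 / 2 ^ a) := mul_le_mul hs1 (hne j hj) (abs_nonneg _) (by norm_num)
          _ = 2 / 2 ^ a := one_mul _
  have h2 : (m : ℝ) * L * (2 / 2 ^ a) ≤ 2 * (m * L) / 2 ^ (e + X) := by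
    have h3 : (2 : ℝ) / 2 ^ a ≤ 2 / 2 ^ (e + X) :=
      div_le_div_of_nonneg_left (by norm_num) (by positivity)
        (pow_le_pow_right₀ (by norm_num) haX)
    calc (m : ℝ) * L * (2 / 2 ^ a) ≤ m * L * (2 / 2 ^ (e + X)) :=
          mul_le_mul_of_nonneg_left h3 (by positivity)
      _ = 2 * (m * L) / 2 ^ (e + X) := by ring
  have e1 : (2 * ((m : ℝ) * L) + 1) / 2 ^ (e + X) = 2 * (m * L) / 2 ^ (e + X) +
      1 / 2 ^ (e + X) := by ring
  rw [e1]
  have h4 := hseg.trans h2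
  rw [abs_le] at h4 hx ⊢
  constructor <;> linarith only [hx, h4, h4.1, h4.2, hx.1, hx.2]

/-- The floors of two samples. -/
theorem two_floor {s X : ℕ} (hs : s ≤ X) {M : ℝ} {e : ℕ} {g g' x x' : ℝ}
    (h : |g - x| ≤ M / 2 ^ (e + X)) (h' : |g' - x'| ≤ M / 2 ^ (e + X)) :
    |(2 : ℝ) ^ (e + s) * (g - g') - 2 ^ (e + s) * (x - x')| ≤ 2 * M := by
  have hM : 0 ≤ M := by
    have h1 := (abs_nonneg _).trans h
    have h2 : (0 : ℝ) < 2 ^ (e + X) := by positivity
    by_contra hcon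
    push Not at hcon
    have := div_neg_of_neg_of_pos hcon h2
    linarith only [h1, this]
  have e1 : (2 : ℝ) ^ (e + s) * (g - g') - 2 ^ (e + s) * (x - x') =
      2 ^ (e + s) * ((g - x) - (g' - x')) := by ring
  rw [e1, abs_mul, abs_of_pos (by positivity : (0 : ℝ) < 2 ^ (e + s))]
  have h3 : |(g - x) - (g' - x')| ≤ 2 * M / 2 ^ (e + s) := by
    have h4 : M / 2 ^ (e + X) ≤ M / 2 ^ (e + s) :=
      div_le_div_of_nonneg_left hM (by positivity) (pow_le_pow_right₀ (by norm_num) (by omega))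
    have e2 : 2 * M / 2 ^ (e + s) = M / 2 ^ (e + s) + M / 2 ^ (e + s) := by ring
    rw [e2]
    rw [abs_le] at h h' ⊢
    constructor <;> linarith only [h, h', h4, h.1, h.2, h'.1, h'.2]
  calc (2 : ℝ) ^ (e + s) * |(g - x) - (g' - x')| ≤ 2 ^ (e + s) * (2 * M / 2 ^ (e + s)) :=
        mul_le_mul_of_nonneg_left h3 (by positivity)
    _ = 2 * M := by field_simp

/-- **(HF2)** -/
theorem hf2_thm (m K : ℕ) {L C0 c κ : ℝ} (hL : 0 ≤ L) (hC0 : 0 ≤ C0) (hc : 0 < c)
    (hκ : 0 < κ) : HF2 m K L C0 c κ := by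
  classical
  have _ := hC0
  have hl2 : 0 < Real.log 2 := Real.log_pos one_lt_two
  obtain ⟨M, hM⟩ : ∃ M : ℝ, M = 2 * (m * L) + 1 := ⟨_, rfl⟩
  have hM0 : 0 ≤ M := by rw [hM]; positivity
  obtain ⟨C, hC⟩ : ∃ C : ℝ, C = 2 * Real.log (2 * (2 * M + 2) + 1) + m * Real.log 7 := ⟨_, rfl⟩
  have hC1 : 0 ≤ Real.log (2 * (2 * M + 2) + 1) := Real.log_nonneg (by linarith only [hM0])
  have hC2 : 0 ≤ Real.log 7 := Real.log_nonneg (by norm_num)
  have hCn : 0 ≤ C := by rw [hC]; positivity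
  obtain ⟨δ, hδ⟩ : ∃ δ : ℝ, δ = c * κ * Real.log 2 / 16 := ⟨_, rfl⟩
  have hδ0 : 0 < δ := by rw [hδ]; positivity
  refine ⟨δ, ⌈2 / κ⌉₊ + ⌈C / δ⌉₊, hδ0, ?_⟩
  intro J F i₁ A a w q e X G H π₀ hX hπ hp haX haJ hG hgr hx hrow hmk hwa hq hH hnear
  have hwJ : w ≤ J := hwa.trans haJ
  have hX0 : (0 : ℝ) ≤ X := Nat.cast_nonneg X
  have hXr : 2 / κ ≤ X := by
    have h1 := Nat.le_ceil (2 / κ)
    have h2 : ⌈2 / κ⌉₊ ≤ X := by omega
    have h3 : ((⌈2 / κ⌉₊ : ℕ) : ℝ) ≤ X := by exact_mod_cast h2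
    linarith only [h1, h3]
  have hXC : C ≤ δ * X := by
    have h1 := Nat.le_ceil (C / δ)
    have h2 : ⌈C / δ⌉₊ ≤ X := by omega
    have h3 : ((⌈C / δ⌉₊ : ℕ) : ℝ) ≤ X := by exact_mod_cast h2
    have h4 : C / δ ≤ X := h1.trans h3
    rw [div_le_iff₀ hδ0] at h4
    linarith only [h4]
  have hκX : 2 ≤ κ * X := by
    rw [div_le_iff₀ hκ] at hXr
    linarith only [hXr]
  intro j hj B hBA hPB
  have hrow1 := hrow j hj B hBA hPB
  have hmk1 := hmk j hj B hBA hPB
  obtain ⟨h, hh⟩ : ∃ h : ℕ, h = ⌊κ * X⌋₊ := ⟨_, rfl⟩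
  rw [← hh] at hj hrow1 hmk1 ⊢
  have hhκ : κ * X / 2 ≤ h := by
    have := Nat.lt_floor_add_one (κ * X)
    rw [← hh] at this
    linarith only [hκX, this]
  obtain ⟨r, hr⟩ : ∃ r : ℕ, r = j * h := ⟨_, rfl⟩
  have hrX : r + h ≤ X := by
    have : (j + 1) * h = j * h + h := by ring
    omega
  rw [← hr] at hrow1 hmk1 ⊢
  obtain ⟨p, hpd⟩ : ∃ p, p = Pool.Agent.H49.Ent.cond F.p B True := ⟨_, rfl⟩
  have hrl : IsLaw p := by
    have h1 := rs_cond F.isLaw.nonneg (A := A) hp {ω | B ω}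
    have h2 : Pool.Agent.H49.Ent.cond F.p (fun ω => A ω ∧ ω ∈ {ω | B ω}) True =
        Pool.Agent.H49.Ent.cond F.p B True := by
      congr 1
      funext ω
      exact propext ⟨fun h => h.2, fun h => ⟨hBA ω h, h⟩⟩
    rw [hpd, ← h2, ← h1]
    exact Pool.KAF.rs_law hp (lt_of_lt_of_le hπ hPB)
  have hnn := hrl.nonneg
  have hpA : ∀ ω, 0 < p ω → A ω := by
    intro ω hω
    rw [hpd] at hω
    exact hBA ω (Pool.SLP.of_cond_pos hω)
  rw [← hpd] at hrow1 hmk1 ⊢
  -- the rows of the passive coordinate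
  obtain ⟨x, hxd⟩ : ∃ x : ℕ → F.Ω → ℤ, x = fun s ω => ⌊(2 : ℝ) ^ (e + s) * F.x ω i₁⌋ := ⟨_, rfl⟩
  have hg : ∀ ω, A ω → |gfn F i₁ G ω (cen i₁ J a w q (ctx F i₁ a w q e H ω) (F.W ω)) -
      F.x ω i₁| ≤ M / 2 ^ (e + X) := by
    intro ω hω
    rw [hM]
    exact gfn_cen hL hwJ hq haX (hgr ω hω) (hx ω hω)
  have hunu : ∀ s ω, unu F i₁ a w q K e H G s ω =
      ⌊(2 : ℝ) ^ (e + s) * (gfn F i₁ G ω (cen i₁ J a w q (ctx F i₁ a w q e H ω) (F.W ω)) -
        rce i₁ J w K e (ctx F i₁ a w q e H ω) (F.W ω))⌋ := by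
    intro s ω
    unfold unu
    rw [nub_eq, ← mul_assoc, ← pow_add, Nat.add_comm s e]
  -- (i) the height from the passive coordinate
  have hi : CH p (unu F i₁ a w q K e H G (r + h)) (fun ω => (x (r + h) ω,
      (unu F i₁ a w q K e H G r ω, ctx F i₁ a w q e H ω, F.W ω))) ≤
      Real.log (2 * (2 * M + 2) + 1) := by
    refine (CH_le_int hnn hrl.sum_one _ _ (fun _ => 2 * M + 2) ?_).trans ?_
    · intro ω ω' hω hω' he
      have e1 : x (r + h) ω = x (r + h) ω' := (Prod.ext_iff.1 he).1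
      have e2 := (Prod.ext_iff.1 (Prod.ext_iff.1 he).2).2
      have e3 : ctx F i₁ a w q e H ω = ctx F i₁ a w q e H ω' := (Prod.ext_iff.1 e2).1
      have e4 : F.W ω = F.W ω' := (Prod.ext_iff.1 e2).2
      rw [hunu, hunu]
      refine (Pool.OCT.floor_diff (L := 2 * M + 1) ?_).trans (by linarith only)
      have k1 := hg ω (hpA ω hω)
      have k2 := hg ω' (hpA ω' hω')
      have k3 := two_floor (s := r + h) hrX k1 k2
      rw [hxd] at e1
      have k4 := Pool.OCT.floor_eq_near e1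
      rw [← mul_sub] at k4
      have e5 : (2 : ℝ) ^ (e + (r + h)) *
          (gfn F i₁ G ω (cen i₁ J a w q (ctx F i₁ a w q e H ω) (F.W ω)) -
            rce i₁ J w K e (ctx F i₁ a w q e H ω) (F.W ω)) - 2 ^ (e + (r + h)) *
          (gfn F i₁ G ω' (cen i₁ J a w q (ctx F i₁ a w q e H ω') (F.W ω')) -
            rce i₁ J w K e (ctx F i₁ a w q e H ω') (F.W ω')) =
          2 ^ (e + (r + h)) *
          (gfn F i₁ G ω (cen i₁ J a w q (ctx F i₁ a w q e H ω) (F.W ω)) -
            gfn F i₁ G ω' (cen i₁ J a w q (ctx F i₁ a w q e H ω') (F.W ω'))) := by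
        rw [← e3, ← e4]
        ring
      rw [e5]
      rw [abs_le] at k3 k4 ⊢
      constructor <;> linarith only [k3, k4, k3.1, k3.2, k4.1, k4.2]
    · rw [Ex_const hrl.sum_one]
  -- (ii) the passive coordinate from the height
  have hii : CH p (x r) (fun ω => (unu F i₁ a w q K e H G r ω, ctx F i₁ a w q e H ω, F.W ω)) ≤
      Real.log (2 * (2 * M + 2) + 1) := by
    refine (CH_le_int hnn hrl.sum_one _ _ (fun _ => 2 * M + 2) ?_).trans ?_
    · intro ω ω' hω hω' he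
      have e1 : unu F i₁ a w q K e H G r ω = unu F i₁ a w q K e H G r ω' :=
        (Prod.ext_iff.1 he).1
      have e2 := (Prod.ext_iff.1 he).2
      have e3 : ctx F i₁ a w q e H ω = ctx F i₁ a w q e H ω' := (Prod.ext_iff.1 e2).1
      have e4 : F.W ω = F.W ω' := (Prod.ext_iff.1 e2).2
      rw [hxd]
      refine (Pool.OCT.floor_diff (L := 2 * M + 1) ?_).trans (by linarith only)
      have k1 := hg ω (hpA ω hω)
      have k2 := hg ω' (hpA ω' hω')
      have k3 := two_floor (s := r) (by omega) k1 k2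
      rw [hunu, hunu] at e1
      have k4 := Pool.OCT.floor_eq_near e1
      have e5 : (2 : ℝ) ^ (e + r) *
          (gfn F i₁ G ω (cen i₁ J a w q (ctx F i₁ a w q e H ω) (F.W ω)) -
            rce i₁ J w K e (ctx F i₁ a w q e H ω) (F.W ω)) - 2 ^ (e + r) *
          (gfn F i₁ G ω' (cen i₁ J a w q (ctx F i₁ a w q e H ω') (F.W ω')) -
            rce i₁ J w K e (ctx F i₁ a w q e H ω') (F.W ω')) =
          2 ^ (e + r) *
          (gfn F i₁ G ω (cen i₁ J a w q (ctx F i₁ a w q e H ω) (F.W ω)) -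
            gfn F i₁ G ω' (cen i₁ J a w q (ctx F i₁ a w q e H ω') (F.W ω'))) := by
        rw [← e3, ← e4]
        ring
      rw [e5] at k4
      rw [← mul_sub]
      rw [abs_le] at k3 k4 ⊢
      constructor <;> linarith only [k3, k4, k3.1, k3.2, k4.1, k4.2]
    · rw [Ex_const hrl.sum_one]
  -- (iii) the tangential digits from the context
  have hiii : CH p (tdg i₁ (e + r + h) F.x)
      (fun ω => (x r ω, (ctx F i₁ a w q e H ω, F.W ω))) ≤ m * Real.log 7 := by
    have h1 := tdg_ctx hrl i₁ hwJ hq e H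
    refine le_trans ?_ h1
    refine (CH_mono_cond hnn (W := fun ω => (ctx F i₁ a w q e H ω, F.W ω)) ?_).trans
      (CH_mono_left hnn ?_)
    · intro ω ω' _ _ he
      exact (Prod.ext_iff.1 he).2
    · intro ω ω' _ _ he
      exact tdg_mono i₁ (by omega) F.x (Prod.ext_iff.1 he).1
  -- the rows of the point
  have hXX : ∀ s ω ω', tdg i₁ (e + s) F.x ω = tdg i₁ (e + s) F.x ω' → x s ω = x s ω' →
      F.X (e + s) ω = F.X (e + s) ω' := by
    intro s ω ω' h1 h2
    funext i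
    by_cases hi : i = i₁
    · rw [hi]
      rw [hxd] at h2
      exact h2
    · have h3 := congrFun h1 i
      unfold tdg at h3
      rw [if_neg hi, if_neg hi] at h3
      exact h3
  have hXx : ∀ s ω ω', F.X (e + s) ω = F.X (e + s) ω' → x s ω = x s ω' := by
    intro s ω ω' h1
    rw [hxd]
    exact congrFun h1 i₁
  have hXt : ∀ s ω ω', F.X s ω = F.X s ω' → tdg i₁ s F.x ω = tdg i₁ s F.x ω' :=
    fun s ω ω' h1 => tdg_of_fl i₁ F.x h1
  -- (iv) the fine passive coordinate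
  have hiv : CH p (x (r + h)) (fun ω => (tdg i₁ (e + r + h) F.x ω, (F.X (e + r) ω, F.W ω))) ≤
      (1 - c) * (h * Real.log 2) + δ * X := by
    have c1 := CH_chain hnn (x (r + h)) (tdg i₁ (e + r + h) F.x)
      (fun ω => (F.X (e + r) ω, F.W ω))
    have c2 : CH p (fun ω => (x (r + h) ω, tdg i₁ (e + r + h) F.x ω))
        (fun ω => (F.X (e + r) ω, F.W ω)) ≤
        CH p (F.X (e + r + h)) (fun ω => (F.X (e + r) ω, F.W ω)) := by
      refine CH_mono_left hnn ?_
      intro ω ω' _ _ he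
      have e1 : F.X (e + r + h) ω = F.X (e + r + h) ω' := (Prod.ext_iff.1 he).1
      refine Prod.ext ?_ (hXt _ _ _ e1)
      have e2 : e + r + h = e + (r + h) := by omega
      rw [e2] at e1
      exact hXx _ _ _ e1
    nlinarith only [hmk1, hrow1, c1, c2]
  have hv : CH p (x (r + h)) (fun ω => (x r ω, (ctx F i₁ a w q e H ω, F.W ω))) ≤
      m * Real.log 7 + ((1 - c) * (h * Real.log 2) + δ * X) := by
    have c1 := CH_le_add hnn (x (r + h)) (tdg i₁ (e + r + h) F.x)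
      (fun ω => (x r ω, (ctx F i₁ a w q e H ω, F.W ω)))
    have c2 : CH p (x (r + h)) (fun ω => (tdg i₁ (e + r + h) F.x ω,
        (x r ω, (ctx F i₁ a w q e H ω, F.W ω)))) ≤
        CH p (x (r + h)) (fun ω => (tdg i₁ (e + r + h) F.x ω, (F.X (e + r) ω, F.W ω))) := by
      refine CH_mono_cond hnn ?_
      intro ω ω' _ _ he
      have e1 := Prod.ext_iff.1 he
      have e2 := Prod.ext_iff.1 e1.2
      have e3 := Prod.ext_iff.1 e2.2
      exact Prod.ext e1.1 (Prod.ext (hXX r _ _ (tdg_mono i₁ (by omega) F.x e1.1) e2.1) e3.2)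
    linarith only [hiii, hiv, c1, c2]
  -- the end
  have hfin : CH p (unu F i₁ a w q K e H G (r + h))
      (fun ω => (unu F i₁ a w q K e H G r ω, ctx F i₁ a w q e H ω, F.W ω)) ≤
      (1 - c) * (h * Real.log 2) + δ * X + C := by
    have c1 := CH_le_add hnn (unu F i₁ a w q K e H G (r + h)) (x (r + h))
      (fun ω => (unu F i₁ a w q K e H G r ω, ctx F i₁ a w q e H ω, F.W ω))
    have c2 := CH_le_add hnn (x (r + h)) (x r)
      (fun ω => (unu F i₁ a w q K e H G r ω, ctx F i₁ a w q e H ω, F.W ω))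
    have c3 : CH p (x (r + h)) (fun ω => (x r ω,
        (unu F i₁ a w q K e H G r ω, ctx F i₁ a w q e H ω, F.W ω))) ≤
        CH p (x (r + h)) (fun ω => (x r ω, (ctx F i₁ a w q e H ω, F.W ω))) := by
      refine CH_mono_cond hnn ?_
      intro ω ω' _ _ he
      have e1 := Prod.ext_iff.1 he
      exact Prod.ext e1.1 (Prod.ext_iff.1 e1.2).2
    rw [hC]
    linarith only [hi, hii, hv, c1, c2, c3]
  refine hfin.trans ?_
  have g1 : 2 * (δ * X) ≤ c / 2 * (h * Real.log 2) := by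
    have g2 : 2 * (δ * X) = c / 4 * (κ * X / 2 * Real.log 2) := by
      rw [hδ]
      ring
    rw [g2]
    have g6 : κ * X / 2 * Real.log 2 ≤ h * Real.log 2 := mul_le_mul_of_nonneg_right hhκ hl2.le
    have g7 : 0 ≤ κ * X / 2 * Real.log 2 := by positivity
    nlinarith only [hCn, hXC, g2, hc, g6]
  have e9 : (1 - c / 2) * h * Real.log 2 = (1 - c) * (h * Real.log 2) +
      c / 2 * (h * Real.log 2) := by ring
  rw [e9]
  linarith only [hXC, g1]

end Pool.PTH
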